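import Pool.Agent.R963.CA.Final
import Pool.Agent.R963.CA.Norm
import Pool.Agent.R963.CA.Quad
import Pool.Agent.R963.CA.Geo1
import Pool.Agent.R963.CA.Geo2
import Pool.Agent.R963.CA.Ell
import Pool.Agent.R963.CA.Constr
import Pool.Agent.R963.CA.Per
import Pool.Agent.R963.CA.Osc
import Pool.Agent.R963.CA.B2
import Pool.Agent.R963.CA.B1
import Pool.Agent.R963.CA.B1p
import Pool.Agent.R963.CA.Semi
import Pool.Agent.R963.CA.Lim1
import Pool.Agent.R963.CA.Limi
import Pool.Agent.R963.CA.Dual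

open scoped ContDiff Topology
open Set Filter

namespace Pool.Agent.Results.MP_1d3344_gt.MinimalRotationNumber

noncomputable section

set_option maxHeartbeats 400000

/-- `[u, v] = det(u, v)` for vectors of the plane. -/
def bracket (u v : ℝ × ℝ) : ℝ := u.1 * v.2 - u.2 * v.1

/-- The centroaffine curvature `p = [γ', γ'']`. -/
def curvature (γ : ℝ → ℝ × ℝ) (t : ℝ) : ℝ := bracket (deriv γ t) (deriv (deriv γ) t)

/-- `F = p^(a-1)`. -/
def potential (a : ℝ) (γ : ℝ → ℝ × ℝ) (t : ℝ) : ℝ := (curvature γ t) ^ (a - 1)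

/-- `γ` is a smooth closed curve of period `T > 0` in centroaffine parametrisation
(`[γ, γ'] = 1`), with `p > 0`, which is an extremal curve of `B_a`
(`½ F''' + 2 p F' + p' F = 0` with `F = p^(a-1)`), and its rotation number is `n`: there is a
continuous polar angle `θ` of `γ` whose increase over one period is `2πn`. -/
structure IsExtremal (a T : ℝ) (n : ℕ) (γ : ℝ → ℝ × ℝ) : Prop where
  smooth : ContDiff ℝ ∞ γ
  period_pos : 0 < T
  periodic : ∀ t, γ (t + T) = γ t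
  centroaffine : ∀ t, bracket (γ t) (deriv γ t) = 1
  curvature_pos : ∀ t, 0 < curvature γ t
  extremal : ∀ t, (1 / 2) * deriv (deriv (deriv (potential a γ))) t
    + 2 * curvature γ t * deriv (potential a γ) t + deriv (curvature γ) t * potential a γ t = 0
  rotation : ∃ r θ : ℝ → ℝ, Continuous θ ∧ (∀ t, 0 < r t) ∧
    (∀ t, γ t = (r t * Real.cos (θ t), r t * Real.sin (θ t))) ∧ θ T - θ 0 = 2 * Real.pi * n

/-- A set in the plane is an ellipse: the image of the unit circle under an invertible affine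
map. -/
def IsEllipse (S : Set (ℝ × ℝ)) : Prop := ∃ x₀ y₀ a₁ a₂ b₁ b₂ : ℝ, a₁ * b₂ - a₂ * b₁ ≠ 0 ∧
  S = {v | ∃ φ : ℝ, v = (x₀ + a₁ * Real.cos φ + a₂ * Real.sin φ,
    y₀ + b₁ * Real.cos φ + b₂ * Real.sin φ)}

/-- The set of the rotation numbers of the nontrivial extremal curves of `B_a` (those whose image
is not an ellipse). The number `m(a)` is its least element. -/
def rotationNumbers (a : ℝ) : Set ℕ := {n | ∃ T γ, IsExtremal a T n γ ∧ ¬ IsEllipse (range γ)}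

/-- The parameter `σ(a) = (4a-2)/(a-1)`. -/
def sigma (a : ℝ) : ℝ := (4 * a - 2) / (a - 1)

/-- `x` lies strictly between `p` and `q` (in either order). -/
def StrictlyBetween (x p q : ℝ) : Prop := (p < x ∧ x < q) ∨ (q < x ∧ x < p)

lemma isExtremal_iff (a T : ℝ) (n : ℕ) (γ : ℝ → ℝ × ℝ) :
    IsExtremal a T n γ ↔ Pool.Agent.R963.CA.Extr a T n γ :=
  ⟨fun h => ⟨h.smooth, h.period_pos, h.periodic, h.centroaffine, h.curvature_pos, h.extremal,
    h.rotation⟩, fun h => ⟨h.smooth, h.T_pos, h.per, h.ca, h.p_pos, h.ext, h.rot⟩⟩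

lemma rotationNumbers_eq (a : ℝ) : rotationNumbers a = Pool.Agent.R963.CA.rotSet a := by
  ext n
  unfold rotationNumbers Pool.Agent.R963.CA.rotSet
  simp only [mem_setOf_eq, isExtremal_iff]
  rfl

theorem characterisation (a : ℝ) (ha0 : a ≠ 0) (ha3 : a ≠ 1 / 3) (ha : a < 1 / 2 ∨ 1 < a)
    (n : ℕ) : n ∈ rotationNumbers a ↔ 1 ≤ n ∧ ∃ k : ℕ, 1 ≤ k ∧
      StrictlyBetween (k : ℝ) (n * √(sigma a)) (n * min 2 (sigma a)) := by
  rw [rotationNumbers_eq]
  have hn := Pool.Agent.R963.CA.t_norm Pool.Agent.R963.CA.t_quad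
  exact Pool.Agent.R963.CA.rot_iff (Pool.Agent.R963.CA.t_geo1 hn) Pool.Agent.R963.CA.t_triv
    Pool.Agent.R963.CA.t_geo2 Pool.Agent.R963.CA.t_ell Pool.Agent.R963.CA.t_dual
    (Pool.Agent.R963.CA.t_per Pool.Agent.R963.CA.t_con)
    (Pool.Agent.R963.CA.t_osc Pool.Agent.R963.CA.t_con) Pool.Agent.R963.CA.t_b2
    (Pool.Agent.R963.CA.t_b1 Pool.Agent.R963.CA.t_semi)
    (Pool.Agent.R963.CA.t_b1' Pool.Agent.R963.CA.t_conc)
    Pool.Agent.R963.CA.t_cont Pool.Agent.R963.CA.t_lim1 Pool.Agent.R963.CA.t_limi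
    ha0 ha3 ha n

theorem least_gt_one (a : ℝ) (ha : 1 < a) :
    IsLeast (rotationNumbers a) (⌊1 / (√(sigma a) - 2)⌋₊ + 1) := by
  have hs : 4 < sigma a := Pool.Agent.R963.CA.ss_gt ha
  have hq : 2 < √(sigma a) := by
    rw [show (2 : ℝ) = √4 by rw [show (4 : ℝ) = 2 ^ 2 by norm_num, Real.sqrt_sq (by norm_num)]]
    exact Real.sqrt_lt_sqrt (by norm_num) hs
  have := Pool.Agent.R963.CA.least_gt hq
  have hset : rotationNumbers a = {n : ℕ | 1 ≤ n ∧ ∃ k : ℕ, 1 ≤ k ∧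
      Pool.Agent.R963.CA.Btw (k : ℝ) (n * √(sigma a)) (n * 2)} := by
    ext n
    rw [characterisation a (by linarith) (by linarith) (Or.inr ha) n,
      min_eq_left (by linarith : (2 : ℝ) ≤ sigma a)]
    rfl
  rw [hset]
  exact this

theorem least_neg (a : ℝ) (ha : a < 0) :
    IsLeast (rotationNumbers a) (⌊1 / (2 - √(sigma a))⌋₊ + 1) := by
  obtain ⟨hs1, hs2⟩ : 2 < sigma a ∧ sigma a < 4 := Pool.Agent.R963.CA.ss_mid ha
  have hq : √(sigma a) < 2 := by
    rw [show (2 : ℝ) = √4 by rw [show (4 : ℝ) = 2 ^ 2 by norm_num, Real.sqrt_sq (by norm_num)]]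
    exact Real.sqrt_lt_sqrt (by linarith) hs2
  have hq1 : 1 < √(sigma a) := by
    rw [show (1 : ℝ) = √1 by simp]
    exact Real.sqrt_lt_sqrt (by norm_num) (by linarith)
  have := Pool.Agent.R963.CA.least_lt hq hq1
  have hset : rotationNumbers a = {n : ℕ | 1 ≤ n ∧ ∃ k : ℕ, 1 ≤ k ∧
      Pool.Agent.R963.CA.Btw (k : ℝ) (n * √(sigma a)) (n * 2)} := by
    ext n
    rw [characterisation a (by linarith) (by linarith) (Or.inl (by linarith)) n,
      min_eq_left (by linarith : (2 : ℝ) ≤ sigma a)]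
    rfl
  rw [hset]
  exact this

theorem nonempty_mid (a : ℝ) (ha0 : 0 < a) (ha2 : a < 1 / 2) (ha3 : a ≠ 1 / 3) :
    (rotationNumbers a).Nonempty := by
  obtain ⟨f0, f2, f1, f4, ha1⟩ :=
    Pool.Agent.R963.CA.ss_facts (a := a) (by linarith) ha3 (Or.inl ha2)
  change 0 < sigma a at f0
  change sigma a ≠ 2 at f2
  change sigma a ≠ 1 at f1
  have hlt : sigma a < 2 := by
    unfold sigma
    rw [div_lt_iff_of_neg (by linarith)]; linarith
  have hmin : min 2 (sigma a) = sigma a := min_eq_right hlt.le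
  have hsq : 0 < √(sigma a) := Real.sqrt_pos.mpr f0
  have hss : √(sigma a) * √(sigma a) = sigma a := Real.mul_self_sqrt f0.le
  rcases lt_or_gt_of_ne f1 with h | h
  · have hlt1 : √(sigma a) < 1 := by
      rw [show (1 : ℝ) = √1 by simp]
      exact Real.sqrt_lt_sqrt f0.le h
    obtain ⟨n, hn, k, hk, h1, h2⟩ :=
      Pool.Agent.R963.CA.exists_between (p := sigma a) (q := √(sigma a)) f0 (by nlinarith)
    refine ⟨n, (characterisation a (by linarith) ha3 (Or.inl ha2) n).mpr ⟨hn, k, hk, ?_⟩⟩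
    rw [hmin]
    exact Or.inr ⟨h1, h2⟩
  · have hgt1 : 1 < √(sigma a) := by
      rw [show (1 : ℝ) = √1 by simp]
      exact Real.sqrt_lt_sqrt (by norm_num) h
    obtain ⟨n, hn, k, hk, h1, h2⟩ :=
      Pool.Agent.R963.CA.exists_between (p := √(sigma a)) (q := sigma a) hsq (by nlinarith)
    refine ⟨n, (characterisation a (by linarith) ha3 (Or.inl ha2) n).mpr ⟨hn, k, hk, ?_⟩⟩
    rw [hmin]
    exact Or.inl ⟨h1, h2⟩

theorem tends_infty (N : ℕ) : ∃ A : ℝ, 1 < A ∧ ∀ a : ℝ, A < a → ∀ n ∈ rotationNumbers a, N < n := by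
  have hN : (0 : ℝ) ≤ N := N.cast_nonneg
  refine ⟨N + 2, by linarith, ?_⟩
  intro a ha n hn
  have ha1 : 1 < a := by linarith
  have hle := (least_gt_one a ha1).2 hn
  have hs : 4 < sigma a := Pool.Agent.R963.CA.ss_gt ha1
  have hs0 : 0 ≤ sigma a := by linarith
  have hsq : √(sigma a) * √(sigma a) = sigma a := Real.mul_self_sqrt hs0
  have hq : 2 < √(sigma a) := by
    rw [show (2 : ℝ) = √4 by rw [show (4 : ℝ) = 2 ^ 2 by norm_num, Real.sqrt_sq (by norm_num)]]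
    exact Real.sqrt_lt_sqrt (by norm_num) hs
  have hsig : sigma a = 4 + 2 / (a - 1) := by
    unfold sigma
    have : a - 1 ≠ 0 := by linarith
    field_simp
    ring
  have hx : 2 * (a - 1) ≤ 1 / (√(sigma a) - 2) := by
    rw [le_div_iff₀ (by linarith)]
    have h1 : (a - 1) * ((√(sigma a) - 2) * (√(sigma a) + 2)) = 2 := by
      have : (√(sigma a) - 2) * (√(sigma a) + 2) = 2 / (a - 1) := by
        have e : (√(sigma a) - 2) * (√(sigma a) + 2) = √(sigma a) * √(sigma a) - 4 := by ring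
        rw [e, hsq, hsig]
        ring
      rw [this]
      have h0 : a - 1 ≠ 0 := by linarith
      field_simp
    have h0 : 0 < (a - 1) * (√(sigma a) - 2) := mul_pos (by linarith) (by linarith)
    nlinarith
  have h2 : 1 / (√(sigma a) - 2) < (⌊1 / (√(sigma a) - 2)⌋₊ : ℝ) + 1 := Nat.lt_floor_add_one _
  have h3 : (⌊1 / (√(sigma a) - 2)⌋₊ : ℝ) + 1 ≤ n := by exact_mod_cast hle
  have h4 : (N : ℝ) < n := by linarith
  exact_mod_cast h4

/-- **Determination of `m(a)`, the least rotation number of a nontrivial extremal curve of `B_a`,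
and proof that `m(a) → ∞` as `a → +∞`.** -/
theorem result :
    (∀ a : ℝ, a ≠ 0 → a ≠ 1 / 3 → (a < 1 / 2 ∨ 1 < a) → ∀ n : ℕ,
      n ∈ rotationNumbers a ↔ 1 ≤ n ∧ ∃ k : ℕ, 1 ≤ k ∧
        StrictlyBetween (k : ℝ) (n * √(sigma a)) (n * min 2 (sigma a))) ∧
    (∀ a : ℝ, 1 < a → IsLeast (rotationNumbers a) (⌊1 / (√(sigma a) - 2)⌋₊ + 1)) ∧
    (∀ a : ℝ, a < 0 → IsLeast (rotationNumbers a) (⌊1 / (2 - √(sigma a))⌋₊ + 1)) ∧
    (∀ a : ℝ, 0 < a → a < 1 / 2 → a ≠ 1 / 3 → (rotationNumbers a).Nonempty) ∧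
    (∀ N : ℕ, ∃ A : ℝ, 1 < A ∧ ∀ a : ℝ, A < a → ∀ n ∈ rotationNumbers a, N < n) :=
  ⟨characterisation, least_gt_one, least_neg, nonempty_mid, tends_infty⟩

end

end Pool.Agent.Results.MP_1d3344_gt.MinimalRotationNumber
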